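import Mathlib

set_option autoImplicit false

open Filter Topology

namespace Pool.Agent.H108R4.JT585

/-- A decreasing sequence of nonempty closed convex bounded sets in a complete normed space
satisfying the parallelogram law has a common point. -/
theorem nested {Z : Type} [NormedAddCommGroup Z] [NormedSpace ℝ Z] [CompleteSpace Z]
    (par : ∀ x y : Z, ‖x + y‖ ^ 2 + ‖x - y‖ ^ 2 = 2 * (‖x‖ ^ 2 + ‖y‖ ^ 2))
    (K : ℕ → Set Z) (hconv : ∀ n, Convex ℝ (K n)) (hcl : ∀ n, IsClosed (K n))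
    (hne : ∀ n, (K n).Nonempty) (hdec : ∀ n, K (n+1) ⊆ K n) (C : ℝ)
    (hC : ∀ x ∈ K 0, ‖x‖ ≤ C) : ∃ x, ∀ n, x ∈ K n := by
  have hanti : Antitone K := antitone_nat_of_succ_le hdec
  -- the minimal norms
  let d : ℕ → ℝ := fun n => sInf ((fun x => ‖x‖) '' K n)
  have hbdd : ∀ n, BddBelow ((fun x : Z => ‖x‖) '' K n) := fun n =>
    ⟨0, by rintro _ ⟨x, _, rfl⟩; exact norm_nonneg x⟩
  have hdle : ∀ n, ∀ x ∈ K n, d n ≤ ‖x‖ := fun n x hx => csInf_le (hbdd n) ⟨x, hx, rfl⟩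
  have hd0 : ∀ n, 0 ≤ d n := fun n => le_csInf ((hne n).image _) (by
    rintro _ ⟨x, _, rfl⟩; exact norm_nonneg x)
  have hdmono : Monotone d := by
    intro n m hnm
    exact le_csInf ((hne m).image _) (by
      rintro _ ⟨x, hx, rfl⟩; exact hdle n x (hanti hnm hx))
  have hdC : ∀ n, d n ≤ C := by
    intro n
    obtain ⟨x, hx⟩ := hne n
    exact (hdle n x hx).trans (hC x (hanti (Nat.zero_le n) hx))
  obtain ⟨D, hD⟩ : ∃ D, Tendsto d atTop (𝓝 D) :=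
    ⟨_, tendsto_atTop_ciSup hdmono ⟨C, by rintro _ ⟨n, rfl⟩; exact hdC n⟩⟩
  have hdD : ∀ n, d n ≤ D := fun n => hdmono.ge_of_tendsto hD n
  have hsel : ∀ n : ℕ, ∃ x ∈ K n, ‖x‖ ≤ d n + 1 / ((n : ℝ) + 1) := by
    intro n
    obtain ⟨_, ⟨x, hx, rfl⟩, h⟩ := exists_lt_of_csInf_lt ((hne n).image (fun x => ‖x‖))
      (lt_add_of_pos_right (d n) (by positivity : (0 : ℝ) < 1 / ((n : ℝ) + 1)))
    exact ⟨x, hx, h.le⟩
  choose x hxK hxn using hsel
  -- bound on distances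
  let b : ℕ → ℝ := fun n => 4 * (D + 1 / ((n : ℝ) + 1)) ^ 2 - 4 * d n ^ 2
  have hb : ∀ n m, n ≤ m → ‖x n - x m‖ ^ 2 ≤ b n := by
    intro n m hnm
    have h1 := par (x n) (x m)
    have hmid : (1 / 2 : ℝ) • x n + (1 / 2 : ℝ) • x m ∈ K n :=
      hconv n (hxK n) (hanti hnm (hxK m)) (by norm_num) (by norm_num) (by norm_num)
    have h2 := hdle n _ hmid
    have h3 : ‖(1 / 2 : ℝ) • x n + (1 / 2 : ℝ) • x m‖ = 1 / 2 * ‖x n + x m‖ := by
      rw [← smul_add, norm_smul]; norm_num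
    rw [h3] at h2
    have h4 : 4 * d n ^ 2 ≤ ‖x n + x m‖ ^ 2 := by
      have := hd0 n
      nlinarith [norm_nonneg (x n + x m)]
    have hn0 : (0 : ℝ) < 1 / ((n : ℝ) + 1) := by positivity
    have hm0 : (0 : ℝ) < 1 / ((m : ℝ) + 1) := by positivity
    have hmn : 1 / ((m : ℝ) + 1) ≤ 1 / ((n : ℝ) + 1) := by
      apply one_div_le_one_div_of_le (by positivity)
      have : (n : ℝ) ≤ m := by exact_mod_cast hnm
      linarith
    have h5 : ‖x n‖ ^ 2 ≤ (D + 1 / ((n : ℝ) + 1)) ^ 2 := by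
      have : ‖x n‖ ≤ D + 1 / ((n : ℝ) + 1) := (hxn n).trans (by linarith [hdD n])
      exact pow_le_pow_left₀ (norm_nonneg _) this 2
    have h6 : ‖x m‖ ^ 2 ≤ (D + 1 / ((n : ℝ) + 1)) ^ 2 := by
      have : ‖x m‖ ≤ D + 1 / ((n : ℝ) + 1) := (hxn m).trans (by linarith [hdD m])
      exact pow_le_pow_left₀ (norm_nonneg _) this 2
    show _ ≤ 4 * (D + 1 / ((n : ℝ) + 1)) ^ 2 - 4 * d n ^ 2
    linarith
  have hb0 : Tendsto b atTop (𝓝 0) := by
    have h1 : Tendsto (fun n : ℕ => 1 / ((n : ℝ) + 1)) atTop (𝓝 0) :=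
      tendsto_one_div_add_atTop_nhds_zero_nat
    have h2 : Tendsto b atTop (𝓝 (4 * (D + 0) ^ 2 - 4 * D ^ 2)) :=
      (((tendsto_const_nhds.add h1).pow 2).const_mul 4).sub ((hD.pow 2).const_mul 4)
    simpa using h2
  have hsq : Tendsto (fun n => Real.sqrt (b n)) atTop (𝓝 0) := by
    have h := (Real.continuous_sqrt.tendsto 0).comp hb0
    rw [Real.sqrt_zero] at h
    exact h
  have hcau : CauchySeq x := by
    apply cauchySeq_of_le_tendsto_0' (fun n => Real.sqrt (b n))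
    · intro n m hnm
      rw [dist_eq_norm]
      exact Real.le_sqrt_of_sq_le (hb n m hnm)
    · exact hsq
  obtain ⟨y, hy⟩ := cauchySeq_tendsto_of_complete hcau
  refine ⟨y, fun n => ?_⟩
  exact (hcl n).mem_of_tendsto hy
    (eventually_atTop.2 ⟨n, fun m hm => hanti hm (hxK m)⟩)

end Pool.Agent.H108R4.JT585
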