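import Mathlib

set_option autoImplicit false

open scoped ENNReal

namespace Pool.Agent.H108R4.JT585

/-- Primary Banach spaces. -/
def IsPrimary (𝕜 X : Type) [RCLike 𝕜] [NormedAddCommGroup X] [NormedSpace 𝕜 X] : Prop :=
  ¬ FiniteDimensional 𝕜 X ∧ ∀ Y Z : Submodule 𝕜 X, IsClosed (Y : Set X) → IsClosed (Z : Set X) →
    IsCompl Y Z → Nonempty (Y ≃L[𝕜] X) ∨ Nonempty (Z ≃L[𝕜] X)

section L2

variable {𝕜 X : Type} [RCLike 𝕜] [NormedAddCommGroup X] [NormedSpace 𝕜 X]

/-- `ℓ₂(X)`. -/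
abbrev L2 (X : Type) [NormedAddCommGroup X] : Type := lp (fun _ : ℕ => X) 2

lemma two_toReal : (2 : ℝ≥0∞).toReal = 2 := by norm_num

lemma two_pos' : 0 < (2 : ℝ≥0∞).toReal := by norm_num

/-- a sequence dominated termwise by a constant times an `ℓ₂` sequence is in `ℓ₂` -/
lemma memL2_map (T : X →L[𝕜] X) (v : L2 X) : Memℓp (fun k => T (v k)) 2 := by
  have h : Memℓp (fun k => (‖T‖ : ℝ) * ‖v k‖) 2 := by
    have := (lp.memℓp v).norm
    exact this.const_mul (‖T‖ : ℝ)
  exact h.mono (fun k => T.le_opNorm (v k))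

/-- the coordinatewise operator -/
noncomputable def mapL (T : X →L[𝕜] X) : L2 X →L[𝕜] L2 X :=
  LinearMap.mkContinuous
    { toFun := fun v => ⟨fun k => T (v k), memL2_map T v⟩
      map_add' := fun v w => by
        ext k
        show T ((v + w : L2 X) k) = T (v k) + T (w k)
        rw [lp.coeFn_add, Pi.add_apply, map_add]
      map_smul' := fun c v => by
        ext k
        show T ((c • v : L2 X) k) = c • T (v k)
        rw [lp.coeFn_smul, Pi.smul_apply, map_smul] }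
    ‖T‖ (by
      intro v
      have h1 : ‖(⟨fun k => T (v k), memL2_map T v⟩ : L2 X)‖ ≤ ‖((‖T‖ : ℝ) : 𝕜) • v‖ := by
        apply lp.norm_mono (by norm_num)
        intro k
        show ‖T (v k)‖ ≤ ‖(((‖T‖ : ℝ) : 𝕜) • v : L2 X) k‖
        rw [lp.coeFn_smul, Pi.smul_apply, norm_smul, RCLike.norm_ofReal, abs_norm]
        exact T.le_opNorm (v k)
      refine h1.trans ?_
      rw [norm_smul, RCLike.norm_ofReal, abs_norm])

@[simp] lemma mapL_apply (T : X →L[𝕜] X) (v : L2 X) (k : ℕ) : mapL T v k = T (v k) := rfl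

lemma summable_sq (v : L2 X) : Summable fun k => ‖v k‖ ^ (2 : ℝ≥0∞).toReal :=
  (lp.memℓp v).summable two_pos'

/-- right shift on sequences -/
def shR (v : ℕ → X) : ℕ → X := fun k => Nat.casesOn k 0 (fun j => v j)

@[simp] lemma shR_zero (v : ℕ → X) : shR v 0 = 0 := rfl
@[simp] lemma shR_succ (v : ℕ → X) (k : ℕ) : shR v (k + 1) = v k := rfl

lemma memL2_shR (v : L2 X) : Memℓp (shR v) 2 := by
  apply memℓp_gen
  rw [← summable_nat_add_iff 1]
  exact summable_sq v

lemma memL2_shL (v : L2 X) : Memℓp (fun k => v (k + 1)) 2 := by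
  apply memℓp_gen
  exact (summable_nat_add_iff 1).2 (summable_sq v)

/-- right shift operator -/
noncomputable def SR : L2 X →L[𝕜] L2 X :=
  LinearMap.mkContinuous
    { toFun := fun v => ⟨shR v, memL2_shR v⟩
      map_add' := fun v w => by
        ext k
        cases k with
        | zero => show (0 : X) = 0 + 0; simp
        | succ k => show (v + w : L2 X) k = v k + w k; rw [lp.coeFn_add, Pi.add_apply]
      map_smul' := fun c v => by
        ext k
        cases k with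
        | zero => show (0 : X) = c • 0; simp
        | succ k => show (c • v : L2 X) k = c • v k; rw [lp.coeFn_smul, Pi.smul_apply] }
    1 (by
      intro v
      rw [one_mul]
      apply lp.norm_le_of_tsum_le two_pos' (norm_nonneg v)
      rw [lp.norm_rpow_eq_tsum two_pos' v]
      show ∑' i, ‖shR v i‖ ^ (2 : ℝ≥0∞).toReal ≤ _
      have hs : Summable fun k => ‖shR v k‖ ^ (2 : ℝ≥0∞).toReal :=
        (memL2_shR v).summable two_pos'
      rw [hs.tsum_eq_zero_add]
      simp)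

@[simp] lemma SR_zero (v : L2 X) : (SR (𝕜 := 𝕜) v : L2 X) 0 = 0 := rfl
@[simp] lemma SR_succ (v : L2 X) (k : ℕ) : (SR (𝕜 := 𝕜) v : L2 X) (k + 1) = v k := rfl

/-- left shift operator -/
noncomputable def SL : L2 X →L[𝕜] L2 X :=
  LinearMap.mkContinuous
    { toFun := fun v => ⟨fun k => v (k + 1), memL2_shL v⟩
      map_add' := fun v w => by
        ext k
        show (v + w : L2 X) (k + 1) = v (k + 1) + w (k + 1)
        rw [lp.coeFn_add, Pi.add_apply]
      map_smul' := fun c v => by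
        ext k
        show (c • v : L2 X) (k + 1) = c • v (k + 1)
        rw [lp.coeFn_smul, Pi.smul_apply] }
    1 (by
      intro v
      rw [one_mul]
      apply lp.norm_le_of_tsum_le two_pos' (norm_nonneg v)
      rw [lp.norm_rpow_eq_tsum two_pos' v]
      show ∑' i, ‖v (i + 1)‖ ^ (2 : ℝ≥0∞).toReal ≤ _
      rw [(summable_sq v).tsum_eq_zero_add]
      have : 0 ≤ ‖v 0‖ ^ (2 : ℝ≥0∞).toReal := by positivity
      linarith)

@[simp] lemma SL_apply (v : L2 X) (k : ℕ) : (SL (𝕜 := 𝕜) v : L2 X) k = v (k + 1) := rfl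

/-- evaluation at `0` -/
noncomputable def ev0 : L2 X →L[𝕜] X :=
  LinearMap.mkContinuous
    { toFun := fun v => v 0
      map_add' := fun v w => by
        show (v + w : L2 X) 0 = v 0 + w 0
        rw [lp.coeFn_add, Pi.add_apply]
      map_smul' := fun c v => by
        show (c • v : L2 X) 0 = c • v 0
        rw [lp.coeFn_smul, Pi.smul_apply] }
    1 (by
      intro v
      rw [one_mul]
      exact lp.norm_apply_le_norm (by norm_num) v 0)

@[simp] lemma ev0_apply (v : L2 X) : ev0 (𝕜 := 𝕜) v = v 0 := rfl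

/-- the first coordinate embedding -/
noncomputable def si0 : X →L[𝕜] L2 X := lp.singleContinuousLinearMap 𝕜 (fun _ : ℕ => X) 2 0

@[simp] lemma si0_zero (x : X) : (si0 (𝕜 := 𝕜) x : L2 X) 0 = x := by
  show (lp.single 2 0 x : L2 X) 0 = x
  rw [lp.single_apply_self]

@[simp] lemma si0_succ (x : X) (k : ℕ) : (si0 (𝕜 := 𝕜) x : L2 X) (k + 1) = 0 := by
  show (lp.single 2 0 x : L2 X) (k + 1) = 0
  rw [lp.single_apply_ne]
  simp

/-- A retract `Y` of `X` is absorbed by `ℓ₂(X)`. -/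
noncomputable def absorb {Y : Type} [NormedAddCommGroup Y] [NormedSpace 𝕜 Y]
    (i : Y →L[𝕜] X) (p : X →L[𝕜] Y) (hpi : ∀ y, p (i y) = y) :
    (Y × L2 X) ≃L[𝕜] L2 X :=
  let P : X →L[𝕜] X := i ∘L p
  let N : X →L[𝕜] X := ContinuousLinearMap.id 𝕜 X - P
  have hP : ∀ x, P x = i (p x) := fun x => rfl
  have hN : ∀ x, N x = x - i (p x) := fun x => rfl
  ContinuousLinearEquiv.equivOfInverse
    ((si0 ∘L i).coprod (mapL N + SR ∘L mapL P))
    ((p ∘L ev0).prod (mapL N + SL ∘L mapL P))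
    (by
      rintro ⟨y, v⟩
      have h0 : ∀ k, (((si0 ∘L i).coprod (mapL N + SR ∘L mapL P)) (y, v) : L2 X) k
          = (si0 (𝕜 := 𝕜) (i y) : L2 X) k + (N (v k) + (SR (𝕜 := 𝕜) (mapL P v) : L2 X) k) := by
        intro k
        rfl
      refine Prod.ext ?_ ?_
      · show p ((((si0 ∘L i).coprod (mapL N + SR ∘L mapL P)) (y, v) : L2 X) 0) = y
        rw [h0, si0_zero, SR_zero, hN]
        simp [hpi]
      · ext k
        show N ((((si0 ∘L i).coprod (mapL N + SR ∘L mapL P)) (y, v) : L2 X) k)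
          + P ((((si0 ∘L i).coprod (mapL N + SR ∘L mapL P)) (y, v) : L2 X) (k + 1)) = v k
        rw [h0, h0, si0_succ, SR_succ, mapL_apply]
        cases k with
        | zero => simp [hN, hP, hpi]
        | succ k => simp [hN, hP, hpi])
    (by
      intro u
      ext k
      have h0 : ∀ k, (((si0 ∘L i).coprod (mapL N + SR ∘L mapL P))
          (((p ∘L ev0).prod (mapL N + SL ∘L mapL P)) u) : L2 X) k
          = (si0 (𝕜 := 𝕜) (i (p (u 0))) : L2 X) k
            + (N (((mapL N + SL ∘L mapL P) u : L2 X) k)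
              + (SR (𝕜 := 𝕜) (mapL P ((mapL N + SL ∘L mapL P) u)) : L2 X) k) := by
        intro k
        rfl
      have h1 : ∀ k, ((mapL N + SL ∘L mapL P) u : L2 X) k = N (u k) + P (u (k + 1)) := by
        intro k
        rfl
      rw [h0]
      cases k with
      | zero =>
        rw [si0_zero, SR_zero, h1]
        simp [hN, hP, hpi]
      | succ k =>
        rw [si0_succ, SR_succ, mapL_apply, h1, h1]
        simp [hN, hP, hpi])

end L2

section Main

variable {𝕜 X : Type} [RCLike 𝕜] [NormedAddCommGroup X] [NormedSpace 𝕜 X]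

/-- Splitting along a retraction. -/
noncomputable def split {U V : Type} [NormedAddCommGroup U] [NormedSpace 𝕜 U]
    [NormedAddCommGroup V] [NormedSpace 𝕜 V]
    (J : U →L[𝕜] V) (Q : V →L[𝕜] U) (h : ∀ u, Q (J u) = u) :
    V ≃L[𝕜] ((LinearMap.ker Q.toLinearMap) × U) :=
  ContinuousLinearEquiv.equivOfInverse
    (((ContinuousLinearMap.id 𝕜 V - J ∘L Q).codRestrict (LinearMap.ker Q.toLinearMap) (by
      intro v
      rw [LinearMap.mem_ker]
      show Q (v - J (Q v)) = 0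
      rw [map_sub, h, sub_self])).prod Q)
    ((LinearMap.ker Q.toLinearMap).subtypeL.coprod J)
    (by
      intro v
      show (v - J (Q v)) + J (Q v) = v
      abel)
    (by
      rintro ⟨⟨w, hw⟩, u⟩
      have hw' : Q w = 0 := hw
      refine Prod.ext ?_ ?_
      · apply Subtype.ext
        show (w + J u) - J (Q (w + J u)) = w
        rw [map_add, hw', h, zero_add]
        abel
      · show Q (w + J u) = u
        rw [map_add, hw', h, zero_add])

/-- retracts of `X` are absorbed by `X` -/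
lemma absorbX (J : L2 X →L[𝕜] X) (Q : X →L[𝕜] L2 X) (hQJ : ∀ u, Q (J u) = u)
    {Y : Type} [NormedAddCommGroup Y] [NormedSpace 𝕜 Y]
    (i : Y →L[𝕜] X) (p : X →L[𝕜] Y) (hpi : ∀ y, p (i y) = y) :
    Nonempty ((Y × X) ≃L[𝕜] X) := by
  let e := split J Q hQJ
  let K := (LinearMap.ker Q.toLinearMap)
  have e1 : (Y × X) ≃L[𝕜] (Y × (K × L2 X)) := (ContinuousLinearEquiv.refl 𝕜 Y).prodCongr e
  have e2 : (Y × (K × L2 X)) ≃L[𝕜] ((Y × K) × L2 X) :=
    (ContinuousLinearEquiv.prodAssoc 𝕜 Y K (L2 X)).symm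
  have e3 : ((Y × K) × L2 X) ≃L[𝕜] ((K × Y) × L2 X) :=
    (ContinuousLinearEquiv.prodComm 𝕜 Y K).prodCongr (ContinuousLinearEquiv.refl 𝕜 (L2 X))
  have e4 : ((K × Y) × L2 X) ≃L[𝕜] (K × (Y × L2 X)) :=
    ContinuousLinearEquiv.prodAssoc 𝕜 K Y (L2 X)
  have e5 : (K × (Y × L2 X)) ≃L[𝕜] (K × L2 X) :=
    (ContinuousLinearEquiv.refl 𝕜 K).prodCongr (absorb i p hpi)
  exact ⟨e1.trans (e2.trans (e3.trans (e4.trans (e5.trans e.symm))))⟩

/-- If the identity of `X` factors through the retract `Y` of `X`, then `Y` is isomorphic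
to `X`. -/
lemma factor (J : L2 X →L[𝕜] X) (Q : X →L[𝕜] L2 X) (hQJ : ∀ u, Q (J u) = u)
    {Y : Type} [NormedAddCommGroup Y] [NormedSpace 𝕜 Y]
    (i : Y →L[𝕜] X) (p : X →L[𝕜] Y) (hpi : ∀ y, p (i y) = y)
    (A C : X →L[𝕜] X) (h : ∀ x, C (i (p (A x))) = x) : Nonempty (Y ≃L[𝕜] X) := by
  let a : X →L[𝕜] Y := p ∘L A
  let c : Y →L[𝕜] X := C ∘L i
  have hca : ∀ x, c (a x) = x := h
  let W := (LinearMap.ker c.toLinearMap)
  let e : Y ≃L[𝕜] (W × X) := split a c hca
  obtain ⟨eXX⟩ := absorbX J Q hQJ (ContinuousLinearMap.id 𝕜 X) (ContinuousLinearMap.id 𝕜 X)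
    (fun _ => rfl)
  obtain ⟨eYX⟩ := absorbX J Q hQJ i p hpi
  -- `Y = W × X = W × (X × X) = (W × X) × X = Y × X = X`
  have e1 : (W × X) ≃L[𝕜] (W × (X × X)) := (ContinuousLinearEquiv.refl 𝕜 W).prodCongr eXX.symm
  have e2 : (W × (X × X)) ≃L[𝕜] ((W × X) × X) :=
    (ContinuousLinearEquiv.prodAssoc 𝕜 W X X).symm
  have e3 : ((W × X) × X) ≃L[𝕜] (Y × X) := e.symm.prodCongr (ContinuousLinearEquiv.refl 𝕜 X)
  exact ⟨e.trans (e1.trans (e2.trans (e3.trans eYX)))⟩

/-- **Task 585-A.** -/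
theorem isPrimary_of_factor (𝕜 X : Type) [RCLike 𝕜] [NormedAddCommGroup X] [NormedSpace 𝕜 X]
    [CompleteSpace X] (hinf : ¬ FiniteDimensional 𝕜 X)
    (J : lp (fun _ : ℕ => X) 2 →L[𝕜] X) (Q : X →L[𝕜] lp (fun _ : ℕ => X) 2)
    (hQJ : ∀ u, Q (J u) = u)
    (hfac : ∀ T : X →L[𝕜] X, (∃ A C : X →L[𝕜] X, ∀ x, C (T (A x)) = x) ∨
      (∃ A C : X →L[𝕜] X, ∀ x, C (A x - T (A x)) = x)) : IsPrimary 𝕜 X := by
  refine ⟨hinf, fun Y Z hY hZ hYZ => ?_⟩
  haveI := hY.completeSpace_coe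
  haveI := hZ.completeSpace_coe
  let e : (Y × Z) ≃L[𝕜] X :=
    (Y.prodEquivOfIsCompl Z hYZ).toContinuousLinearEquivOfContinuous
      (Y.subtypeL.coprod Z.subtypeL).continuous
  have he : ∀ w : Y × Z, e w = (w.1 : X) + (w.2 : X) := fun w => by
    show (Y.prodEquivOfIsCompl Z hYZ) w = _
    simp
  let pY : X →L[𝕜] Y := (ContinuousLinearMap.fst 𝕜 Y Z) ∘L (e.symm : X →L[𝕜] (Y × Z))
  let pZ : X →L[𝕜] Z := (ContinuousLinearMap.snd 𝕜 Y Z) ∘L (e.symm : X →L[𝕜] (Y × Z))
  have hsum : ∀ x, x = (pY x : X) + (pZ x : X) := fun x => by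
    have := he (e.symm x)
    rw [e.apply_symm_apply] at this
    exact this
  have hpY : ∀ y : Y, pY (Y.subtypeL y) = y := fun y => by
    have h1 : e (y, 0) = (y : X) := by rw [he]; simp
    have h2 : e.symm (y : X) = (y, 0) := by rw [← h1, e.symm_apply_apply]
    show (e.symm (y : X)).1 = y
    rw [h2]
  have hpZ : ∀ z : Z, pZ (Z.subtypeL z) = z := fun z => by
    have h1 : e (0, z) = (z : X) := by rw [he]; simp
    have h2 : e.symm (z : X) = (0, z) := by rw [← h1, e.symm_apply_apply]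
    show (e.symm (z : X)).2 = z
    rw [h2]
  rcases hfac (Y.subtypeL ∘L pY) with ⟨A, C, h⟩ | ⟨A, C, h⟩
  · left
    exact factor J Q hQJ Y.subtypeL pY hpY A C h
  · right
    refine factor J Q hQJ Z.subtypeL pZ hpZ A C (fun x => ?_)
    have h1 := h x
    have h2 : A x - (Y.subtypeL ∘L pY) (A x) = Z.subtypeL (pZ (A x)) := by
      have := hsum (A x)
      show A x - (pY (A x) : X) = (pZ (A x) : X)
      rw [sub_eq_iff_eq_add, add_comm]
      exact this
    rw [h2] at h1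
    exact h1

end Main

end Pool.Agent.H108R4.JT585
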